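import Pool.Agent.W593.ZT.Stm

/-! ZT-TK -/

open scoped Classical

set_option autoImplicit false

namespace Pool.Agent.W196.ZT

open Pool.Agent.W593.ZT

theorem sum_ge {V G : Type} [Fintype V] (c : V → V → G) (T : Finset V) (hT : T.Nonempty)
    (S : Finset V) (hS : S ⊆ Finset.univ \ T) :
    S.card ≤ n1 c T + ∑ z ∈ S, ((Cs c T z).card - 1) := by
  have h1 : (S.filter (fun z => (Cs c T z).card = 1)).card ≤ n1 c T := by
    unfold n1
    apply Finset.card_le_card
    intro z hz
    rw [Finset.mem_filter] at hz ⊢
    exact ⟨hS hz.1, hz.2⟩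
  have h2 : (S.filter (fun z => ¬ (Cs c T z).card = 1)).card ≤
      ∑ z ∈ S, ((Cs c T z).card - 1) := by
    rw [Finset.card_filter]
    apply Finset.sum_le_sum
    intro z _
    have h3 : 0 < (Cs c T z).card := Finset.card_pos.mpr (hT.image _)
    split_ifs <;> omega
  have h3 := Finset.card_filter_add_card_filter_not (s := S) (fun z => (Cs c T z).card = 1)
  omega

theorem tk (hKU : S_KU) : S_TK := by
  intro V G _ _ _ c hc T hT3 hn1 M hM hk3 hne hnu hR
  have hTne : T.Nonempty := by
    rw [← Finset.card_pos]; omega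
  set k := Nat.card M with hk
  set q := M.index with hq
  have hkq : k * q = Fintype.card G := by
    rw [hk, hq, AddSubgroup.card_mul_index, Nat.card_eq_fintype_card]
  have hV : Fintype.card V = k * q + 1 := by rw [hkq]; exact hc.card
  have hU : (Finset.univ \ T).card + 3 = k * q + 1 := by
    have := Finset.card_sdiff_add_card_eq_card (Finset.subset_univ T)
    rw [Finset.card_univ, hT3, hV] at this
    exact this
  have hq2 : 2 ≤ q := by omega
  obtain ⟨k', hk'⟩ : ∃ k', k = k' + 3 := ⟨k - 3, by omega⟩
  obtain ⟨q', hq'⟩ : ∃ q', q = q' + 2 := ⟨q - 2, by omega⟩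
  have hexp : k * q = k' * q' + 2 * k' + 3 * q' + 6 := by rw [hk', hq']; ring
  have hpos : 1 ≤ k' * q' + k' + q' := by
    by_contra hcon
    have h1 : k' = 0 := by
      by_contra h; have := Nat.pos_of_ne_zero h; omega
    have h2 : q' = 0 := by
      by_contra h; have := Nat.pos_of_ne_zero h; omega
    exact hne ⟨by omega, by omega⟩
  refine hKU V G c hc M T hTne hM (by omega) hnu hR ?_ ?_ ?_
  · intro K hK
    set S := ((Finset.univ \ T) \ nc c M Finset.univ T) \ K with hS
    have h1 : (Finset.univ \ T).card ≤ S.card + (nc c M Finset.univ T).card + K.card := by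
      have e1 := Finset.le_card_sdiff (nc c M Finset.univ T) (Finset.univ \ T)
      have e2 : ((Finset.univ \ T) \ nc c M Finset.univ T).card - K.card ≤ S.card :=
        Finset.le_card_sdiff K ((Finset.univ \ T) \ nc c M Finset.univ T)
      omega
    have h2 := sum_ge c T hTne S
      ((Finset.sdiff_subset).trans (Finset.sdiff_subset))
    change k ≤ _
    omega
  · change 2 * q + k ≤ _
    omega
  · intro v s hv hvq hsv
    have h1 : 2 * s + 2 ≤ q := by
      have : (s + 1) * 2 ≤ (s + 1) * v := Nat.mul_le_mul_left _ hv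
      omega
    change 2 * v + 2 * s + k ≤ _
    omega

end Pool.Agent.W196.ZT
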